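import Mathlib

namespace Pool.Agent.Lib.MP_4b35b9_lc

open MeasureTheory

/-- A real as a zero-one valued function, for use as an oracle. -/
def chi (X : ℕ → Bool) : ℕ →. ℕ := fun n => Part.some (X n).toNat

/-- The basic cylinder of the reals extending the string `σ`. -/
def cyl (σ : List Bool) : Set (ℕ → Bool) := {X | (List.range σ.length).map X = σ}

/-- `R` represents `μ`: it computes, uniformly in `σ` and `n`, a dyadic rational within
`2 ^ (-n)` of the measure of the cylinder of `σ`. -/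
def Represents (R : ℕ → Bool) (μ : Measure (ℕ → Bool)) : Prop :=
  ∃ q : List Bool × ℕ → ℕ, ComputableIn {chi R} q ∧
    ∀ σ n, |μ.real (cyl σ) - (q (σ, n) : ℝ) / 2 ^ n| ≤ 1 / 2 ^ n

/-- A Martin-Löf test for `μ` relative to `R`: a set of pairs, recursively enumerable in `R`,
whose `n`-th column has total weight at most `2 ^ (-n)`. -/
def IsTest (R : ℕ → Bool) (μ : Measure (ℕ → Bool)) (U : Set (ℕ × List Bool)) : Prop :=
  (∃ f : ℕ × List Bool →. ℕ, RecursiveIn {chi R} f ∧ f.Dom = U) ∧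
    ∀ n, ∑' σ : {σ // (n, σ) ∈ U}, μ (cyl σ) ≤ 1 / 2 ^ n

/-- `X` passes every test relative to some representation of `μ`. -/
def IsRandom (μ : Measure (ℕ → Bool)) (X : ℕ → Bool) : Prop :=
  ∃ R, Represents R μ ∧ ∀ U, IsTest R μ U → ∃ n, ∀ σ, (n, σ) ∈ U → X ∉ cyl σ

/-- `X` is not random for any continuous probability measure. -/
def NCR (X : ℕ → Bool) : Prop :=
  ∀ μ : Measure (ℕ → Bool), IsProbabilityMeasure μ → (∀ Y, μ {Y} = 0) → ¬ IsRandom μ X

/-- Lightface analytic sets of natural numbers, in Kleene normal form. -/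
def Sigma11 (A : Set ℕ) : Prop :=
  ∃ T : ℕ × List ℕ → Prop, ComputablePred T ∧
    ∀ n, n ∈ A ↔ ∃ f : ℕ → ℕ, ∀ k, T (n, (List.range k).map f)

/-- Hyperarithmetic reals. -/
def Delta11 (X : ℕ → Bool) : Prop := Sigma11 {n | X n = true} ∧ Sigma11 {n | X n = false}

/-- Every function that dominates `f` computes `X`. -/
def IsModulus (f : ℕ → ℕ) (X : ℕ → Bool) : Prop :=
  ∀ g : ℕ → ℕ, (∀ n, f n ≤ g n) → TuringReducible (chi X) fun n => Part.some (g n)

/-- `X` computes a modulus for itself. -/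
def HasSelfModulus (X : ℕ → Bool) : Prop :=
  ∃ f : ℕ → ℕ, TuringReducible (fun n => Part.some (f n)) (chi X) ∧ IsModulus f X

end Pool.Agent.Lib.MP_4b35b9_lc
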