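import Pool.Agent.Shared.Oracle.RE

/-!
The nested waiting processes: states, the step function, and its computability.
-/

namespace Pool.Agent.Lib.MP_4b35b9_lc

open Encodable Pool.Agent.Shared.Oracle Nat.Partrec Nat.Partrec.Code

/-- Shapes of nested processes. -/
inductive Sh : Type
  | leaf : Sh
  | node (n i a : ℕ) (A B : Sh) : Sh

namespace Sh

/-- Coding of shapes. -/
def enc : Sh → ℕ
  | leaf => 0
  | node n i a A B => Nat.pair (Nat.pair n (Nat.pair i a)) (Nat.pair (enc A) (enc B)) + 1

/-- Decoding of shapes. -/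
def dec : ℕ → Sh
  | 0 => leaf
  | m + 1 =>
    have _h1 : m.unpair.2.unpair.1 < m + 1 :=
      Nat.lt_succ_of_le ((Nat.unpair_left_le _).trans (Nat.unpair_right_le _))
    have _h2 : m.unpair.2.unpair.2 < m + 1 :=
      Nat.lt_succ_of_le ((Nat.unpair_right_le _).trans (Nat.unpair_right_le _))
    node m.unpair.1.unpair.1 m.unpair.1.unpair.2.unpair.1 m.unpair.1.unpair.2.unpair.2
      (dec m.unpair.2.unpair.1) (dec m.unpair.2.unpair.2)

theorem dec_enc : ∀ s, dec (enc s) = s
  | leaf => by simp [enc, dec]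
  | node n i a A B => by simp [enc, dec, dec_enc A, dec_enc B]

theorem enc_dec (m : ℕ) : enc (dec m) = m := by
  induction m using Nat.strong_induction_on with
  | _ m ih =>
    rcases m with - | m
    · simp [enc, dec]
    · have h1 : m.unpair.2.unpair.1 < m + 1 :=
        Nat.lt_succ_of_le ((Nat.unpair_left_le _).trans (Nat.unpair_right_le _))
      have h2 : m.unpair.2.unpair.2 < m + 1 :=
        Nat.lt_succ_of_le ((Nat.unpair_right_le _).trans (Nat.unpair_right_le _))
      rw [dec, enc, ih _ h1, ih _ h2]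
      simp

/-- Shapes correspond to natural numbers. -/
def equivNat : Sh ≃ ℕ := ⟨enc, dec, dec_enc, enc_dec⟩

instance : Primcodable Sh := Primcodable.ofEquiv ℕ equivNat

theorem prim_enc : Primrec enc := Primrec.of_equiv (e := equivNat)

theorem prim_dec : Primrec dec := Primrec.of_equiv_symm (e := equivNat)

/-- The phase counter. -/
def cn : Sh → ℕ
  | leaf => 0
  | node n _ _ _ _ => n

/-- The index of the tip being processed. -/
def ci : Sh → ℕ
  | leaf => 0
  | node _ i _ _ _ => i

/-- The number of tips of the dormant process. -/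
def ca : Sh → ℕ
  | leaf => 0
  | node _ _ a _ _ => a

/-- The dormant process. -/
def cA : Sh → Sh
  | leaf => leaf
  | node _ _ _ A _ => A

/-- The waiting process. -/
def cB : Sh → Sh
  | leaf => leaf
  | node _ _ _ _ B => B

theorem prim_u : Primrec fun s : Sh => (enc s - 1).unpair :=
  Primrec.unpair.comp (Primrec.nat_sub.comp prim_enc (Primrec.const 1))

theorem prim_cn : Primrec cn :=
  (Primrec.fst.comp (Primrec.unpair.comp (Primrec.fst.comp prim_u))).of_eq fun s => by
    cases s <;> simp [enc, cn]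

theorem prim_ci : Primrec ci :=
  (Primrec.fst.comp (Primrec.unpair.comp (Primrec.snd.comp (Primrec.unpair.comp
    (Primrec.fst.comp prim_u))))).of_eq fun s => by cases s <;> simp [enc, ci]

theorem prim_ca : Primrec ca :=
  (Primrec.snd.comp (Primrec.unpair.comp (Primrec.snd.comp (Primrec.unpair.comp
    (Primrec.fst.comp prim_u))))).of_eq fun s => by cases s <;> simp [enc, ca]

theorem prim_cA : Primrec cA :=
  (prim_dec.comp (Primrec.fst.comp (Primrec.unpair.comp (Primrec.snd.comp prim_u)))).of_eq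
    fun s => by cases s <;> simp [enc, cA, dec_enc, dec]

theorem prim_cB : Primrec cB :=
  (prim_dec.comp (Primrec.snd.comp (Primrec.unpair.comp (Primrec.snd.comp prim_u)))).of_eq
    fun s => by cases s <;> simp [enc, cB, dec_enc, dec]

theorem prim_node {α : Type} [Primcodable α] {n i a : α → ℕ} {A B : α → Sh} (hn : Primrec n)
    (hi : Primrec i) (ha : Primrec a) (hA : Primrec A) (hB : Primrec B) :
    Primrec fun x => node (n x) (i x) (a x) (A x) (B x) := by
  have h := prim_dec.comp (Primrec.succ.comp (Primrec₂.natPair.comp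
    (Primrec₂.natPair.comp hn (Primrec₂.natPair.comp hi ha))
    (Primrec₂.natPair.comp (prim_enc.comp hA) (prim_enc.comp hB))))
  exact h.of_eq fun x => dec_enc (node (n x) (i x) (a x) (A x) (B x))

theorem enc_A_lt (n i a : ℕ) (A B : Sh) : enc A < enc (node n i a A B) :=
  Nat.lt_succ_of_le ((Nat.left_le_pair _ _).trans (Nat.right_le_pair _ _))

theorem enc_B_lt (n i a : ℕ) (A B : Sh) : enc B < enc (node n i a A B) :=
  Nat.lt_succ_of_le ((Nat.right_le_pair _ _).trans (Nat.right_le_pair _ _))

end Sh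

open Sh

/-- The `e`-th uniformly enumerable family of sets of strings, closed under extensions. -/
def W (e n t : ℕ) (ρ : List Bool) : Bool :=
  decide (∃ k < ρ.length + 1,
    (evaln t (Denumerable.ofNat Code e) (encode (ρ.take k, n))).isSome = true)

theorem prim_W : Primrec fun x : (ℕ × ℕ × ℕ) × List Bool => W x.1.1 x.1.2.1 x.1.2.2 x.2 := by
  have h1 : Primrec fun y : ℕ × (ℕ × ℕ × ℕ) × List Bool => (y.2.2.take y.1, y.2.1.2.1) :=
    (Primrec.list_take.comp Primrec.fst (Primrec.snd.comp Primrec.snd)).pair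
      (Primrec.fst.comp (Primrec.snd.comp (Primrec.fst.comp Primrec.snd)))
  have h2 : Primrec fun y : ℕ × (ℕ × ℕ × ℕ) × List Bool =>
      ((y.2.1.2.2, Denumerable.ofNat Code y.2.1.1), encode (y.2.2.take y.1, y.2.1.2.1)) :=
    ((Primrec.snd.comp (Primrec.snd.comp (Primrec.fst.comp Primrec.snd))).pair
      ((Primrec.ofNat Code).comp (Primrec.fst.comp (Primrec.fst.comp Primrec.snd)))).pair
      (Primrec.encode.comp h1)
  have h3 := prim_true (Primrec.option_isSome.comp (primrec_evaln.comp h2))
  have h4 : PrimrecPred fun x : (ℕ × ℕ × ℕ) × List Bool => ∃ k < x.2.length + 1,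
      (evaln x.1.2.2 (Denumerable.ofNat Code x.1.1) (encode (x.2.take k, x.1.2.1))).isSome = true :=
    prim_exists_lt (R := fun k (x : (ℕ × ℕ × ℕ) × List Bool) =>
      (evaln x.1.2.2 (Denumerable.ofNat Code x.1.1) (encode (x.2.take k, x.1.2.1))).isSome = true)
      (Primrec.succ.comp (Primrec.list_length.comp Primrec.snd)) h3
  exact h4.decide

theorem W_mono {e n t t' : ℕ} {ρ ρ' : List Bool} (ht : t ≤ t') (hρ : ρ <+: ρ')
    (h : W e n t ρ = true) : W e n t' ρ' = true := by
  simp only [W, decide_eq_true_eq] at h ⊢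
  obtain ⟨k, hk, h⟩ := h
  obtain ⟨σ, rfl⟩ := hρ
  refine ⟨k, by simp; omega, ?_⟩
  rw [List.take_append_of_le_length (by omega)]
  obtain ⟨x, hx⟩ := Option.isSome_iff_exists.1 h
  exact Option.isSome_iff_exists.2 ⟨x, evaln_mono ht hx⟩

theorem exists_W {p : List Bool × ℕ → Prop} (hp : REPred p)
    (hm : ∀ ρ ρ' n, ρ <+: ρ' → p (ρ, n) → p (ρ', n)) :
    ∃ e, ∀ ρ n, p (ρ, n) ↔ ∃ t, W e n t ρ = true := by
  obtain ⟨c, hc⟩ := exists_code.1 hp
  have h1 : ∀ a, p a ↔ ∃ t, (evaln t c (encode a)).isSome = true := by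
    intro a
    have h1 : p a ↔ ∃ x, x ∈ eval c (encode a) := by
      rw [hc]
      simp [Part.mem_assert_iff]
    rw [h1]
    simp only [evaln_complete, Option.isSome_iff_exists, Option.mem_def]
    exact exists_comm
  refine ⟨encode c, fun ρ n => ?_⟩
  simp only [W, decide_eq_true_eq, Denumerable.ofNat_encode]
  constructor
  · intro h
    obtain ⟨t, ht⟩ := (h1 _).1 h
    exact ⟨t, ρ.length, Nat.lt_succ_self _, by rwa [List.take_length]⟩
  · rintro ⟨t, k, -, h⟩
    exact hm _ _ _ (List.take_prefix k ρ) ((h1 _).2 ⟨t, h⟩)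

/-- The `j`-th string of a list. -/
def nth (l : List (List Bool)) (j : ℕ) : List Bool := l.getD j []

theorem prim_nth : Primrec₂ nth := Primrec.list_getD []

/-- The first tip of the waiting process that has entered the set waited for. -/
def found (t : ℕ) (s : Sh) (e : ℕ) (l : List (List Bool)) : Option (List Bool) :=
  (l.drop s.ca).find? (W e s.cn t)

/-- One step of a process. -/
def step (t : ℕ) : Sh → ℕ → List (List Bool) → Sh × List (List Bool)
  | leaf, _, l => (node 0 0 1 leaf leaf, [nth l 0 ++ [true], nth l 0 ++ [false]])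
  | node n i a A B, e, l =>
    match found t (node n i a A B) e l with
    | Option.some ρ =>
      if i + 1 < a then
        (node n (i + 1) a A leaf, l.take (i + 1) ++ ρ :: ((l.take a).drop (i + 2) ++ [nth l (i + 1)]))
      else
        (node (n + 1) 0 (step t A (e + 1) ((l.take a).tail ++ [ρ])).2.length
            (step t A (e + 1) ((l.take a).tail ++ [ρ])).1 leaf,
          nth l 0 :: ((step t A (e + 1) ((l.take a).tail ++ [ρ])).2.tail ++
            [nth (step t A (e + 1) ((l.take a).tail ++ [ρ])).2 0]))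
    | Option.none => (node n i a A (step t B (e + 1) (l.drop a)).1,
        l.take a ++ (step t B (e + 1) (l.drop a)).2)

theorem prim_find? {α β : Type} [Primcodable α] [Primcodable β] {f : α → List β}
    {p : α → β → Bool} (hf : Primrec f) (hp : Primrec₂ p) :
    Primrec fun a => (f a).find? (p a) :=
  (Primrec.list_getElem?.comp hf (Primrec.list_findIdx hf hp)).of_eq fun a => by
    rw [List.find?_eq_getElem?_findIdx]

/-- The arguments of the step function. -/
abbrev Arg := ℕ × Sh × ℕ × List (List Bool)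

theorem prim_found : Primrec fun x : Arg => found x.1 x.2.1 x.2.2.1 x.2.2.2 := by
  have h1 : Primrec fun x : Arg => x.2.2.2.drop x.2.1.ca :=
    Primrec.list_drop.comp (prim_ca.comp (Primrec.fst.comp Primrec.snd))
      (Primrec.snd.comp (Primrec.snd.comp Primrec.snd))
  have h2 : Primrec fun y : Arg × List Bool => ((y.1.2.2.1, y.1.2.1.cn, y.1.1), y.2) :=
    ((Primrec.fst.comp (Primrec.snd.comp (Primrec.snd.comp Primrec.fst))).pair
      ((prim_cn.comp (Primrec.fst.comp (Primrec.snd.comp Primrec.fst))).pair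
        (Primrec.fst.comp Primrec.fst))).pair Primrec.snd
  have h3 := prim_W.comp h2
  have h4 : Primrec₂ fun (x : Arg) (ρ : List Bool) => W x.2.2.1 x.2.1.cn x.1 ρ := h3
  exact prim_find? h1 h4

/-- The recursive call made by the step function. -/
def calls (x : Arg) : List Arg :=
  if enc x.2.1 = 0 then [] else
    Option.casesOn (found x.1 x.2.1 x.2.2.1 x.2.2.2)
      [(x.1, x.2.1.cB, x.2.2.1 + 1, x.2.2.2.drop x.2.1.ca)]
      fun ρ => [(x.1, x.2.1.cA, x.2.2.1 + 1, (x.2.2.2.take x.2.1.ca).tail ++ [ρ])]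

/-- The result of the step function from the result of the recursive call. -/
def post (x : Arg) (p : Sh × List (List Bool)) : Sh × List (List Bool) :=
  if enc x.2.1 = 0 then (node 0 0 1 leaf leaf, [nth x.2.2.2 0 ++ [true], nth x.2.2.2 0 ++ [false]])
  else
    Option.casesOn (found x.1 x.2.1 x.2.2.1 x.2.2.2)
      (node x.2.1.cn x.2.1.ci x.2.1.ca x.2.1.cA p.1, x.2.2.2.take x.2.1.ca ++ p.2)
      fun ρ => if x.2.1.ci + 1 < x.2.1.ca then
          (node x.2.1.cn (x.2.1.ci + 1) x.2.1.ca x.2.1.cA leaf, x.2.2.2.take (x.2.1.ci + 1) ++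
            ρ :: ((x.2.2.2.take x.2.1.ca).drop (x.2.1.ci + 2) ++ [nth x.2.2.2 (x.2.1.ci + 1)]))
        else (node (x.2.1.cn + 1) 0 p.2.length p.1 leaf, nth x.2.2.2 0 :: (p.2.tail ++ [nth p.2 0]))

theorem prim_calls : Primrec calls := by
  have ht : Primrec fun x : Arg => x.1 := Primrec.fst
  have hs : Primrec fun x : Arg => x.2.1 := Primrec.fst.comp Primrec.snd
  have he : Primrec fun x : Arg => x.2.2.1 + 1 :=
    Primrec.succ.comp (Primrec.fst.comp (Primrec.snd.comp Primrec.snd))
  have hl : Primrec fun x : Arg => x.2.2.2 := Primrec.snd.comp (Primrec.snd.comp Primrec.snd)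
  have h1 : Primrec fun x : Arg => [(x.1, x.2.1.cB, x.2.2.1 + 1, x.2.2.2.drop x.2.1.ca)] :=
    Primrec.list_cons.comp (ht.pair ((prim_cB.comp hs).pair (he.pair
      (Primrec.list_drop.comp (prim_ca.comp hs) hl)))) (Primrec.const [])
  have h2 : Primrec fun x : Arg => (x.2.2.2.take x.2.1.ca).tail :=
    Primrec.list_tail.comp (Primrec.list_take.comp (prim_ca.comp hs) hl)
  have h3 : Primrec fun y : Arg × List Bool =>
      [(y.1.1, y.1.2.1.cA, y.1.2.2.1 + 1, (y.1.2.2.2.take y.1.2.1.ca).tail ++ [y.2])] :=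
    Primrec.list_cons.comp ((ht.comp Primrec.fst).pair (((prim_cA.comp hs).comp Primrec.fst).pair
      ((he.comp Primrec.fst).pair (Primrec.list_concat.comp (h2.comp Primrec.fst) Primrec.snd))))
      (Primrec.const [])
  have h4 := Primrec.option_casesOn prim_found h1 (g := fun (x : Arg) (ρ : List Bool) =>
    [(x.1, x.2.1.cA, x.2.2.1 + 1, (x.2.2.2.take x.2.1.ca).tail ++ [ρ])]) h3
  have h5 := Primrec.ite (Primrec.eq.comp (prim_enc.comp hs) (Primrec.const 0))
    (Primrec.const ([] : List Arg)) h4
  exact h5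

theorem prim_post : Primrec₂ post := by
  have hx : Primrec fun y : Arg × Sh × List (List Bool) => y.1 := Primrec.fst
  have hs : Primrec fun y : Arg × Sh × List (List Bool) => y.1.2.1 :=
    Primrec.fst.comp (Primrec.snd.comp Primrec.fst)
  have hl : Primrec fun y : Arg × Sh × List (List Bool) => y.1.2.2.2 :=
    Primrec.snd.comp (Primrec.snd.comp (Primrec.snd.comp Primrec.fst))
  have hp1 : Primrec fun y : Arg × Sh × List (List Bool) => y.2.1 := Primrec.fst.comp Primrec.snd
  have hp2 : Primrec fun y : Arg × Sh × List (List Bool) => y.2.2 := Primrec.snd.comp Primrec.snd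
  have h0 : Primrec fun y : Arg × Sh × List (List Bool) => nth y.1.2.2.2 0 :=
    prim_nth.comp hl (Primrec.const 0)
  have h1 : Primrec fun y : Arg × Sh × List (List Bool) =>
      (node 0 0 1 leaf leaf, [nth y.1.2.2.2 0 ++ [true], nth y.1.2.2.2 0 ++ [false]]) :=
    (Primrec.const _).pair (Primrec.list_cons.comp (Primrec.list_concat.comp h0 (.const true))
      (Primrec.list_cons.comp (Primrec.list_concat.comp h0 (.const false)) (.const [])))
  have h2 : Primrec fun y : Arg × Sh × List (List Bool) =>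
      (node y.1.2.1.cn y.1.2.1.ci y.1.2.1.ca y.1.2.1.cA y.2.1,
        y.1.2.2.2.take y.1.2.1.ca ++ y.2.2) :=
    (prim_node (prim_cn.comp hs) (prim_ci.comp hs) (prim_ca.comp hs) (prim_cA.comp hs) hp1).pair
      (Primrec.list_append.comp (Primrec.list_take.comp (prim_ca.comp hs) hl) hp2)
  have h3 : Primrec fun y : Arg × Sh × List (List Bool) =>
      node y.1.2.1.cn (y.1.2.1.ci + 1) y.1.2.1.ca y.1.2.1.cA leaf :=
    prim_node (prim_cn.comp hs) (Primrec.succ.comp (prim_ci.comp hs)) (prim_ca.comp hs)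
      (prim_cA.comp hs) (.const _)
  have h4 : Primrec fun y : Arg × Sh × List (List Bool) => y.1.2.2.2.take (y.1.2.1.ci + 1) :=
    Primrec.list_take.comp (Primrec.succ.comp (prim_ci.comp hs)) hl
  have h5 : Primrec fun y : Arg × Sh × List (List Bool) =>
      (y.1.2.2.2.take y.1.2.1.ca).drop (y.1.2.1.ci + 2) ++ [nth y.1.2.2.2 (y.1.2.1.ci + 1)] :=
    Primrec.list_concat.comp (Primrec.list_drop.comp
      (Primrec.nat_add.comp (prim_ci.comp hs) (.const 2))
      (Primrec.list_take.comp (prim_ca.comp hs) hl))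
      (prim_nth.comp hl (Primrec.succ.comp (prim_ci.comp hs)))
  have h6 : Primrec fun y : Arg × Sh × List (List Bool) =>
      (node (y.1.2.1.cn + 1) 0 y.2.2.length y.2.1 leaf,
        nth y.1.2.2.2 0 :: (y.2.2.tail ++ [nth y.2.2 0])) :=
    (prim_node (Primrec.succ.comp (prim_cn.comp hs)) (.const 0) (Primrec.list_length.comp hp2) hp1
      (.const _)).pair (Primrec.list_cons.comp h0 (Primrec.list_concat.comp
        (Primrec.list_tail.comp hp2) (prim_nth.comp hp2 (.const 0))))
  have h7 : PrimrecPred fun y : Arg × Sh × List (List Bool) => y.1.2.1.ci + 1 < y.1.2.1.ca :=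
    Primrec.nat_lt.comp (Primrec.succ.comp (prim_ci.comp hs)) (prim_ca.comp hs)
  have h8 := Primrec.ite (h7.comp (Primrec.fst (β := List Bool)))
    ((h3.comp Primrec.fst).pair (Primrec.list_append.comp (h4.comp Primrec.fst)
      (Primrec.list_cons.comp Primrec.snd (h5.comp Primrec.fst)))) (h6.comp Primrec.fst)
  have h9 := Primrec.option_casesOn (prim_found.comp hx) h2
    (g := fun (y : Arg × Sh × List (List Bool)) (ρ : List Bool) =>
      if y.1.2.1.ci + 1 < y.1.2.1.ca then
          (node y.1.2.1.cn (y.1.2.1.ci + 1) y.1.2.1.ca y.1.2.1.cA leaf,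
            y.1.2.2.2.take (y.1.2.1.ci + 1) ++ ρ :: ((y.1.2.2.2.take y.1.2.1.ca).drop
              (y.1.2.1.ci + 2) ++ [nth y.1.2.2.2 (y.1.2.1.ci + 1)]))
        else (node (y.1.2.1.cn + 1) 0 y.2.2.length y.2.1 leaf,
          nth y.1.2.2.2 0 :: (y.2.2.tail ++ [nth y.2.2 0]))) h8
  have h10 := Primrec.ite (Primrec.eq.comp (prim_enc.comp hs) (Primrec.const 0)) h1 h9
  exact h10

theorem prim_step : Primrec fun x : Arg => step x.1 x.2.1 x.2.2.1 x.2.2.2 := by
  have hg : Primrec₂ fun (x : Arg) (r : List (Sh × List (List Bool))) =>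
      Option.some (post x (r.getD 0 (leaf, []))) :=
    Primrec.option_some.comp (prim_post.comp Primrec.fst
      ((Primrec.list_getD (leaf, [])).comp Primrec.snd (.const 0)))
  refine Primrec.nat_omega_rec' _ (m := fun x : Arg => enc x.2.1)
    (prim_enc.comp (Primrec.fst.comp Primrec.snd)) prim_calls hg ?_ ?_
  · rintro ⟨t, s, e, l⟩ b' hb'
    cases s with
    | leaf => simp [calls, enc] at hb'
    | node n i a A B =>
      have h0 : enc (node n i a A B) ≠ 0 := by simp [enc]
      simp only [calls, h0, if_false] at hb'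
      rcases hf : found t (node n i a A B) e l with - | ρ
      · simp only [hf, List.mem_singleton] at hb'
        rw [hb']; exact enc_B_lt _ _ _ _ _
      · simp only [hf, List.mem_singleton] at hb'
        rw [hb']; exact enc_A_lt _ _ _ _ _
  · rintro ⟨t, s, e, l⟩
    cases s with
    | leaf => simp [post, enc, step]
    | node n i a A B =>
      have h0 : enc (node n i a A B) ≠ 0 := by simp [enc]
      rcases hf : found t (node n i a A B) e l with - | ρ
      · simp [calls, post, h0, step, hf, cn, ci, ca, cA, cB]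
      · simp [calls, post, h0, step, hf, cn, ci, ca, cA, cB]

end Pool.Agent.Lib.MP_4b35b9_lc
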