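import Pool.Agent.Lib.MP_4b35b9_lc.Sub
import Pool.Agent.Lib.MP_4b35b9_lc.Defs

/-!
Members of a countable effectively closed class are never continuously random.
-/

namespace Pool.Agent.Lib.MP_4b35b9_lc

open Pool.Agent.Shared.Oracle MeasureTheory Encodable Filter Topology

theorem measurableSet_cyl (σ : List Bool) : MeasurableSet (cyl σ) :=
  (isClosed_pre σ).measurableSet

/-- The weight of a list of strings computed from approximations. -/
def wt (q : List Bool × ℕ → ℕ) (D : List (List Bool)) (m : ℕ) : ℕ :=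
  (D.map fun σ => q (σ, m) + 1).sum

theorem cin_wt {O : Set (ℕ →. ℕ)} {q : List Bool × ℕ → ℕ} (hq : ComputableIn O q) :
    ComputableIn O fun p : List (List Bool) × ℕ => wt q p.1 p.2 := by
  have h1 : Primrec fun y : (List (List Bool) × ℕ) × ℕ × ℕ => (nth y.1.1 y.2.1, y.1.2) :=
    (prim_nth.comp (Primrec.fst.comp Primrec.fst) (Primrec.fst.comp Primrec.snd)).pair
      (Primrec.snd.comp Primrec.fst)
  have h2 := cin_comp hq h1.computableIn
  have h3 : Primrec₂ fun a b : ℕ => a + (b + 1) :=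
    Primrec.nat_add.comp Primrec.fst (Primrec.succ.comp Primrec.snd)
  have h4 : ComputableIn₂ O fun (p : List (List Bool) × ℕ) (r : ℕ × ℕ) =>
      r.2 + (q (nth p.1 r.1, p.2) + 1) :=
    cin_comp₂ (f := fun a b : ℕ => a + (b + 1)) h3.computableIn₂
      (Primrec.snd.comp Primrec.snd).computableIn h2
  refine cin_of_eq (cin_nat_rec (Primrec.list_length.comp Primrec.fst).computableIn
    (ComputableIn.const 0) h4) ?_
  rintro ⟨D, m⟩
  have : ∀ i ≤ D.length, Nat.rec (motive := fun _ => ℕ) 0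
      (fun y IH => IH + (q (nth D y, m) + 1)) i = wt q (D.take i) m := by
    intro i hi
    induction i with
    | zero => simp [wt]
    | succ i ih =>
      rw [List.take_add_one]
      simp only [wt, List.map_append, List.sum_append] at ih ⊢
      rw [← ih (by omega)]
      simp [nth, show i < D.length by omega]
  simpa using this D.length le_rfl

theorem sum_le_wt {μ : Measure (ℕ → Bool)} {q : List Bool × ℕ → ℕ}
    (hq : ∀ σ n, |μ.real (cyl σ) - (q (σ, n) : ℝ) / 2 ^ n| ≤ 1 / 2 ^ n) (D : List (List Bool))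
    (m : ℕ) : (D.map fun σ => μ.real (cyl σ)).sum ≤ (wt q D m : ℝ) / 2 ^ m ∧
      (wt q D m : ℝ) / 2 ^ m ≤ (D.map fun σ => μ.real (cyl σ)).sum + D.length * (2 / 2 ^ m) := by
  induction D with
  | nil => simp [wt]
  | cons σ D ih =>
    have h := abs_le.1 (hq σ m)
    simp only [wt, List.map_cons, List.sum_cons, Nat.cast_add, Nat.cast_one, List.length_cons,
      add_div] at ih ⊢
    have : (2 : ℝ) / 2 ^ m = 1 / 2 ^ m + 1 / 2 ^ m := by ring
    constructor <;> nlinarith [h.1, h.2, ih.1, ih.2]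

theorem tsum_le_list (μ : Measure (ℕ → Bool)) [IsFiniteMeasure μ] (D : List (List Bool)) :
    ∑' σ : {σ // σ ∈ D}, μ (cyl σ) ≤ ENNReal.ofReal (D.map fun σ => μ.real (cyl σ)).sum := by
  classical
  have h1 : ∑' σ : {σ // σ ∈ D}, μ (cyl σ) = ∑ σ ∈ D.toFinset, μ (cyl σ) := by
    rw [← Finset.tsum_subtype D.toFinset fun σ => μ (cyl σ)]
    exact (Equiv.subtypeEquivRight fun σ => List.mem_toFinset.symm).tsum_eq
      fun σ : {σ // σ ∈ D.toFinset} => μ (cyl σ)
  rw [h1]
  clear h1
  induction D with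
  | nil => simp
  | cons σ D ih =>
    rw [List.map_cons, List.sum_cons, ENNReal.ofReal_add measureReal_nonneg
      (List.sum_nonneg (by simp +contextual [measureReal_nonneg])), ofReal_measureReal,
      List.toFinset_cons]
    by_cases h : σ ∈ D.toFinset
    · rw [Finset.insert_eq_of_mem h]; exact ih.trans le_add_self
    · rw [Finset.sum_insert h]; gcongr

namespace Run

variable {e : ℕ} (R : Run e)

theorem exists_small_cover (hP : R.P.Countable) (μ : Measure (ℕ → Bool)) [IsProbabilityMeasure μ]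
    (hμ : ∀ Y, μ {Y} = 0) {ε : ℝ} (hε : 0 < ε) : ∃ (D : List (List Bool)) (k : ℕ),
      (∀ ρ ∈ R.L k, ρ.take k ∈ D) ∧ (D.map fun σ => μ.real (cyl σ)).sum < ε := by
  classical
  have : NullSingletonClass μ := ⟨hμ⟩
  let E : ℕ → Set (ℕ → Bool) := fun k => {Z | ∃ ρ ∈ R.L k, seg Z k = ρ.take k}
  have hmeas : ∀ k, MeasurableSet (E k) := fun k =>
    (isClopen_seg (fun τ => ∃ ρ ∈ R.L k, τ = ρ.take k) k).isClosed.measurableSet
  have hanti : Antitone E := by
    refine antitone_nat_of_succ_le fun k Z ⟨ρ', h1, h2⟩ => ?_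
    obtain ⟨ρ, h3, ⟨τ, rfl⟩, -⟩ := R.cover k h1
    refine ⟨ρ, h3, ?_⟩
    rw [← seg_take Z (Nat.le_succ k), h2, List.take_take, min_eq_left (Nat.le_succ k),
      List.take_append_of_le_length (R.le_length k ρ h3)]
  have hsub : ⋂ k, E k ⊆ R.P := by
    intro Z hZ j
    obtain ⟨C, hC⟩ := ((List.finite_toSet (R.L j)).image List.length).bddAbove
    obtain ⟨ρ', h1, h2⟩ := Set.mem_iInter.1 hZ (j + C)
    obtain ⟨ρ, h3, τ, rfl⟩ := R.cover_le (Nat.le_add_right j C) ρ' h1
    have h4 : ρ.length ≤ C := hC ⟨ρ, h3, rfl⟩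
    refine ⟨ρ, h3, ?_⟩
    unfold Pre
    rw [← seg_take Z (show ρ.length ≤ j + C by omega), h2, List.take_take,
      min_eq_left (by omega), List.take_left']
    rfl
  have hlim := tendsto_measure_iInter_atTop (μ := μ) (fun k => (hmeas k).nullMeasurableSet) hanti
    ⟨0, measure_ne_top _ _⟩
  rw [measure_mono_null hsub (hP.measure_zero μ)] at hlim
  obtain ⟨k, hk⟩ := (hlim.eventually (gt_mem_nhds (ENNReal.ofReal_pos.2 hε))).exists
  let S : Finset (List Bool) := ((R.L k).map fun ρ => ρ.take k).toFinset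
  have hS : ∀ σ ∈ S, σ.length = k := by
    intro σ hσ
    obtain ⟨ρ, h1, rfl⟩ := List.mem_map.1 (List.mem_toFinset.1 hσ)
    rw [List.length_take, min_eq_left (R.le_length k ρ h1)]
  have hE : E k = ⋃ σ ∈ S, cyl σ := by
    ext Z
    simp only [Set.mem_iUnion, exists_prop]
    constructor
    · rintro ⟨ρ, h1, h2⟩
      have h3 : ρ.take k ∈ S := List.mem_toFinset.2 (List.mem_map.2 ⟨ρ, h1, rfl⟩)
      refine ⟨_, h3, ?_⟩
      change seg Z _ = _
      rw [hS _ h3, h2]
    · rintro ⟨σ, h1, h2⟩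
      have h3 := hS σ h1
      obtain ⟨ρ, h4, h5⟩ := List.mem_map.1 (List.mem_toFinset.1 h1)
      refine ⟨ρ, h4, ?_⟩
      rw [h5, ← h3]
      exact h2
  refine ⟨S.toList, k, fun ρ h => Finset.mem_toList.2 (List.mem_toFinset.2
    (List.mem_map.2 ⟨ρ, h, rfl⟩)), ?_⟩
  rw [Finset.sum_map_toList, ← measureReal_biUnion_finset _ (fun σ _ => measurableSet_cyl σ), ← hE]
  · exact ENNReal.toReal_lt_of_lt_ofReal hk
  · intro σ h1 τ h2 hne
    refine Set.disjoint_left.2 fun Z h3 h4 => hne ?_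
    have h5 : seg Z σ.length = σ := h3
    have h6 : seg Z τ.length = τ := h4
    rw [← h5, ← h6, hS σ h1, hS τ h2]

theorem ncr (hP : R.P.Countable) {X : ℕ → Bool} (hX : X ∈ R.P) : NCR X := by
  classical
  rintro μ hprob hμ ⟨Y, ⟨q, hq, hq'⟩, hY⟩
  obtain ⟨dec, hdec, hdec'⟩ : ∃ dec : ℕ → List (List Bool) × ℕ × ℕ, Primrec dec ∧
      ∀ p, dec (encode p) = p :=
    ⟨fun c => (decode c).getD ([], 0, 0), Primrec.option_getD.comp Primrec.decode (Primrec.const _),
      fun p => by simp only [encodek, Option.getD_some]⟩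
  let good : ℕ → ℕ → Bool := fun n c =>
    decide ((∀ ρ ∈ R.L (dec c).2.1, ρ.take (dec c).2.1 ∈ (dec c).1) ∧
      wt q (dec c).1 (dec c).2.2 * 2 ^ n ≤ 2 ^ (dec c).2.2)
  have hgood : ComputableIn₂ {chi Y} good := by
    have h1 : PrimrecRel fun (ρ : List Bool) (y : List (List Bool) × ℕ × ℕ) =>
        ρ.take y.2.1 ∈ y.1 := by
      have h2 := (Primrec.eq (α := List Bool)).exists_mem_list.comp
        (Primrec.fst.comp (Primrec.snd (α := List Bool) (β := List (List Bool) × ℕ × ℕ)))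
        (Primrec.list_take.comp (Primrec.fst.comp (Primrec.snd.comp Primrec.snd)) Primrec.fst)
      exact h2.of_eq fun p => by simp
    have h2 : PrimrecPred fun z : (List (List Bool) × ℕ) × ℕ × List (List Bool) × ℕ × ℕ =>
        (∀ ρ ∈ z.1.1, ρ.take z.2.2.2.1 ∈ z.2.2.1) ∧ z.1.2 * 2 ^ z.2.1 ≤ 2 ^ z.2.2.2.2 :=
      (h1.forall_mem_list.comp (Primrec.fst.comp Primrec.fst) (Primrec.snd.comp Primrec.snd)).and
        (Primrec.nat_le.comp (Primrec.nat_mul.comp (Primrec.snd.comp Primrec.fst)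
          (prim_pow.comp (.const 2) (Primrec.fst.comp Primrec.snd)))
          (prim_pow.comp (.const 2) (Primrec.snd.comp (Primrec.snd.comp
            (Primrec.snd.comp Primrec.snd)))))
    have h3 : Primrec fun p : ℕ × ℕ => dec p.2 := hdec.comp Primrec.snd
    have h4' : Primrec fun p : ℕ × ℕ => ((dec p.2).1, (dec p.2).2.2) :=
      (Primrec.fst.comp h3).pair (Primrec.snd.comp (Primrec.snd.comp h3))
    have h4 := cin_comp (cin_wt hq) h4'.computableIn
    have h5 : Computable fun p : ℕ × ℕ => R.L (dec p.2).2.1 :=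
      R.comp_L.comp (Primrec.fst.comp (Primrec.snd.comp h3)).to_comp
    have h6 := cin_comp h2.decide.computableIn (cin_pair (cin_pair h5.computableIn h4)
      (Primrec.fst.pair h3).computableIn)
    exact h6
  have hex : ∀ n, ∃ c, good n c = true := by
    intro n
    obtain ⟨D, k, h1, h2⟩ := R.exists_small_cover hP μ hμ (ε := 1 / 2 ^ (n + 1)) (by positivity)
    obtain ⟨m, hm⟩ : ∃ m : ℕ, (D.length : ℝ) * (2 / 2 ^ m) ≤ 1 / 2 ^ (n + 1) := by
      refine ⟨D.length + (n + 2), ?_⟩
      have h3 : (D.length : ℝ) ≤ 2 ^ D.length := by exact_mod_cast Nat.lt_two_pow_self.le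
      calc (D.length : ℝ) * (2 / 2 ^ (D.length + (n + 2)))
          ≤ 2 ^ D.length * (2 / 2 ^ (D.length + (n + 2))) := by gcongr
        _ = 1 / 2 ^ (n + 1) := by field_simp; ring
    refine ⟨encode (D, k, m), ?_⟩
    have h3 : dec (encode (D, k, m)) = (D, k, m) := hdec' _
    simp only [good, h3, decide_eq_true_eq]
    refine ⟨h1, ?_⟩
    have h4 : (wt q D m : ℝ) / 2 ^ m ≤ 1 / 2 ^ n := by
      have := (sum_le_wt hq' D m).2
      have h5 : (1 : ℝ) / 2 ^ n = 1 / 2 ^ (n + 1) + 1 / 2 ^ (n + 1) := by field_simp; ring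
      linarith
    rw [div_le_div_iff₀ (by positivity) (by positivity), one_mul] at h4
    exact_mod_cast h4
  let D : ℕ → List (List Bool) := fun n => (dec (Nat.find (hex n))).1
  have hD : ComputableIn {chi Y} D :=
    cin_comp (f := fun c => (dec c).1) (Primrec.fst.comp hdec).computableIn (cin_find hgood hex)
  have hspec := fun n => of_decide_eq_true (Nat.find_spec (hex n))
  suffices hT : IsTest Y μ {p | p.2 ∈ D p.1} by
    obtain ⟨n, hn⟩ := hY _ hT
    obtain ⟨ρ, h1, h2⟩ := hX (dec (Nat.find (hex n))).2.1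
    exact hn _ ((hspec n).1 ρ h1) (h2.of_prefix (List.take_prefix _ _))
  refine ⟨?_, fun n => ?_⟩
  · have h1 : PrimrecPred fun p : List (List Bool) × List Bool => p.2 ∈ p.1 :=
      ((Primrec.eq (α := List Bool)).exists_mem_list).of_eq fun p => by simp
    have h2 : Partrec fun p : List (List Bool) × List Bool =>
        (Part.assert (p.2 ∈ p.1) fun _ => Part.some ()).map fun _ => (0 : ℕ) :=
      Partrec.map (re_of_prim h1) (Computable.const 0).to₂
    have h3 := rec_comp (h2.recursiveIn (O := {chi Y}))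
      (cin_pair (cin_comp hD (ComputableIn.fst (β := List Bool))) ComputableIn.snd)
    refine ⟨_, h3, ?_⟩
    ext p
    simp [PFun.Dom, Part.assert]
  · refine (tsum_le_list μ (D n)).trans ?_
    have h1 := (sum_le_wt hq' (D n) (dec (Nat.find (hex n))).2.2).1
    have h2 : (wt q (D n) (dec (Nat.find (hex n))).2.2 : ℝ) / 2 ^ (dec (Nat.find (hex n))).2.2 ≤
        1 / 2 ^ n := by
      rw [div_le_div_iff₀ (by positivity) (by positivity), one_mul]
      exact_mod_cast (hspec n).2
    refine (ENNReal.ofReal_le_ofReal (h1.trans h2)).trans_eq ?_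
    rw [ENNReal.ofReal_div_of_pos (by positivity), ENNReal.ofReal_pow (by norm_num)]
    simp

end Run

end Pool.Agent.Lib.MP_4b35b9_lc
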