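import Pool.Agent.Lib.MP_4b35b9_lc.Top
import Pool.Agent.Lib.MP_4b35b9_lc.Ncr

/-!
The real is hyperarithmetic, never continuously random, and its degree has no self-modulus.
-/

namespace Pool.Agent.Lib.MP_4b35b9_lc

open Pool.Agent.Shared.Oracle Encodable Nat.Partrec Nat.Partrec.Code

/-- The bits coded by a sequence of numbers. -/
def bits (s : List ℕ) : List Bool := s.map fun x => decide (x.unpair.1 = 1)

theorem prim_bits : Primrec bits :=
  Primrec.list_map Primrec.id (Primrec.eq.comp (Primrec.fst.comp (Primrec.unpair.comp Primrec.snd))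
    (Primrec.const 1)).decide.to₂

/-- The part of the condition that does not mention the class. -/
def Diag (b : Bool) (n : ℕ) (s : List ℕ) : Prop :=
  (∀ e < s.length, (s.getD e 0).unpair.2 < s.length →
    evaln s.length (Denumerable.ofNat Code e) (s.getD e 0).unpair.2 ≠
      some (encode ((bits s).getD (s.getD e 0).unpair.2 false))) ∧
    (n < s.length → (bits s).getD n false = b)

theorem prim_diag (b : Bool) : PrimrecPred fun p : ℕ × List ℕ => Diag b p.1 p.2 := by
  have h1 : Primrec fun y : ℕ × ℕ × List ℕ => (y.2.2.getD y.1 0).unpair.2 :=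
    Primrec.snd.comp (Primrec.unpair.comp ((Primrec.list_getD 0).comp
      (Primrec.snd.comp Primrec.snd) Primrec.fst))
  have h2 : Primrec fun y : ℕ × ℕ × List ℕ => y.2.2.length :=
    Primrec.list_length.comp (Primrec.snd.comp Primrec.snd)
  have h3 := primrec_evaln.comp ((h2.pair ((Primrec.ofNat Code).comp Primrec.fst)).pair h1)
  have h4 := Primrec.option_some.comp (Primrec.encode.comp ((Primrec.list_getD false).comp
    (prim_bits.comp (Primrec.snd.comp Primrec.snd)) h1))
  have h5 := prim_imp (Primrec.nat_lt.comp h1 h2) (Primrec.eq.comp h3 h4).not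
  have h6 := prim_forall_lt (R := fun (e : ℕ) (p : ℕ × List ℕ) =>
    (p.2.getD e 0).unpair.2 < p.2.length →
      evaln p.2.length (Denumerable.ofNat Code e) (p.2.getD e 0).unpair.2 ≠
        some (encode ((bits p.2).getD (p.2.getD e 0).unpair.2 false)))
    (Primrec.list_length.comp Primrec.snd) h5
  have h7 := prim_imp (Primrec.nat_lt.comp Primrec.fst (Primrec.list_length.comp
    (Primrec.snd (α := ℕ) (β := List ℕ)))) (Primrec.eq.comp ((Primrec.list_getD false).comp
      (prim_bits.comp Primrec.snd) Primrec.fst) (Primrec.const b))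
  exact h6.and h7

theorem computable_iff_code (Z : ℕ → Bool) :
    Computable Z ↔ ∃ e, ∀ m, ∃ t, evaln t (Denumerable.ofNat Code e) m = some (encode (Z m)) := by
  have h1 : Computable Z ↔ Nat.Partrec fun n => Part.some (encode (Z n)) := by
    simp [Computable, Partrec]
  rw [h1, exists_code]
  constructor
  · rintro ⟨c, hc⟩
    refine ⟨encode c, fun m => ?_⟩
    rw [Denumerable.ofNat_encode]
    exact evaln_complete.1 (by rw [hc]; exact Part.mem_some _)
  · rintro ⟨e, he⟩
    refine ⟨_, funext fun m => Part.eq_some_iff.2 (evaln_complete.2 (he m))⟩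

theorem sigma11_bit {e : ℕ} (R : Run e) {X : ℕ → Bool} (hX : X ∈ R.P) (hc : ¬ Computable X)
    (hu : ∀ Z ∈ R.P, Z = X ∨ Computable Z) (b : Bool) : Sigma11 {n | X n = b} := by
  classical
  refine ⟨fun p => (∃ ρ ∈ R.L p.2.length, ρ.take p.2.length = bits p.2) ∧ Diag b p.1 p.2, ?_,
    fun n => ?_⟩
  · have h1 : PrimrecRel fun (ρ : List Bool) (s : List ℕ) => ρ.take s.length = bits s :=
      Primrec.eq.comp (Primrec.list_take.comp (Primrec.list_length.comp Primrec.snd) Primrec.fst)
        (prim_bits.comp Primrec.snd)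
    have h2 : PrimrecPred fun y : List (List Bool) × ℕ × List ℕ =>
        (∃ ρ ∈ y.1, ρ.take y.2.2.length = bits y.2.2) ∧ Diag b y.2.1 y.2.2 :=
      (h1.exists_mem_list.comp Primrec.fst (Primrec.snd.comp Primrec.snd)).and
        ((prim_diag b).comp Primrec.snd)
    have h3 := h2.decide.to_comp.comp ((R.comp_L.comp (Primrec.list_length.comp
      (Primrec.snd (α := ℕ) (β := List ℕ))).to_comp).pair Computable.id)
    exact ⟨_, h3⟩
  have hbits : ∀ (f : ℕ → ℕ) k, bits ((List.range k).map f) =
      seg (fun i => decide ((f i).unpair.1 = 1)) k := by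
    intro f k
    simp [bits, seg]
  have hget : ∀ (f : ℕ → ℕ) k i, i < k → ((List.range k).map f).getD i 0 = f i := by
    intro f k i hi
    simp [hi]
  have hseg : ∀ (Z : ℕ → Bool) k i, i < k → (seg Z k).getD i false = Z i := by
    intro Z k i hi
    simp [seg, hi]
  simp only [Set.mem_ofPred_eq, Diag, hbits, List.length_map, List.length_range]
  constructor
  · intro hn
    have h1 := (computable_iff_code X).not.1 hc
    push Not at h1
    choose w hw using h1
    have h2 : (fun i => decide ((Nat.pair (X i).toNat (w i)).unpair.1 = 1)) = X := by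
      funext i
      cases X i <;> simp
    refine ⟨fun i => Nat.pair (X i).toNat (w i), fun k => ?_⟩
    rw [h2]
    refine ⟨?_, fun e he => ?_, fun h => by rw [hseg _ _ _ h, hn]⟩
    · obtain ⟨ρ, h3, h4⟩ := hX k
      have h5 := List.prefix_iff_eq_take.1 (h4.seg_prefix' (R.le_length k ρ h3))
      rw [seg_length] at h5
      exact ⟨ρ, h3, h5.symm⟩
    · rw [hget _ _ _ he, Nat.unpair_pair]
      intro h
      rw [hseg _ _ _ h]
      exact hw e k
  · rintro ⟨f, hf⟩
    set Z : ℕ → Bool := fun i => decide ((f i).unpair.1 = 1) with hZ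
    have h1 : Z ∈ R.P := by
      intro j
      obtain ⟨C, hC⟩ := ((List.finite_toSet (R.L j)).image List.length).bddAbove
      obtain ⟨ρ', h1, h2⟩ := (hf (j + C)).1
      obtain ⟨ρ, h3, τ, rfl⟩ := R.cover_le (Nat.le_add_right j C) ρ' h1
      have h4 : ρ.length ≤ C := hC ⟨ρ, h3, rfl⟩
      refine ⟨ρ, h3, ?_⟩
      unfold Pre
      rw [← seg_take Z (show ρ.length ≤ j + C by omega), ← h2, List.take_take,
        min_eq_left (by omega), List.take_left']
      rfl
    have h2 : ¬ Computable Z := by
      rw [computable_iff_code]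
      rintro ⟨e, he⟩
      obtain ⟨t, ht⟩ := he (f e).unpair.2
      have h3 := (hf (e + t + (f e).unpair.2 + 1)).2.1 e (by omega)
      rw [hget _ _ _ (by omega)] at h3
      have h4 := h3 (by omega)
      rw [hseg _ _ _ (by omega)] at h4
      exact h4 (evaln_mono (by omega) ht)
    have h3 := (hf (n + 1)).2.2 (by omega)
    rwa [hseg _ _ _ (by omega), (hu Z h1).resolve_right h2] at h3

theorem main : ∃ X : ℕ → Bool, Delta11 X ∧ NCR X ∧
    ∀ Y, TuringEquivalent (chi Y) (chi X) → ¬ HasSelfModulus Y := by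
  obtain ⟨X, hX, hc, hu, hdom⟩ := exists_real
  refine ⟨X, ⟨sigma11_bit top hX hc hu _, sigma11_bit top hX hc hu _⟩, top.ncr ?_ hX, ?_⟩
  · refine ((Set.countable_singleton X).union countable_computable).mono fun Z hZ => ?_
    exact hu Z hZ
  · rintro Y ⟨h1, h2⟩ ⟨f, hf, hm⟩
    obtain ⟨g, hg, hfg⟩ := hdom f (hf.trans h1)
    have h3 : RecursiveIn ∅ (orc X) := by
      refine RecursiveIn.subst (h2.trans (hm g hfg)) ?_
      rintro _ rfl
      exact Partrec.recursiveIn hg
    exact hc (recursiveIn_empty_iff.1 (orc_iff.1 h3))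

end Pool.Agent.Lib.MP_4b35b9_lc
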