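import Pool.Agent.Lib.MP_4b35b9_lc.Run

/-!
Every run contains a run for the next requirement.
-/

namespace Pool.Agent.Lib.MP_4b35b9_lc

open Pool.Agent.Shared.Oracle Sh

theorem Ext.drop {l₁ l₂ L : List (List Bool)} (h : Ext (l₁ ++ l₂) L) :
    Ext l₂ (L.drop l₁.length) := by
  have h1 := h.1
  simp only [List.length_append] at h1
  refine ⟨by simp only [List.length_drop]; omega, fun j hj => ?_⟩
  have := h.2 (l₁.length + j) (by simp only [List.length_append]; omega)
  rwa [nth_append_right (by omega), Nat.add_sub_cancel_left, ← nth_drop] at this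

theorem WF.leaf_inv {m : ℕ} (h : WF .leaf m) : m = 1 := by
  cases h; rfl

namespace Run

variable {e : ℕ} (R : Run e)

/-- The outcome of the search at a stage. -/
def fd (k : ℕ) : Option (List Bool) := found (R.t k) (R.sh k) e (R.L k)

theorem comp_sh : Computable R.sh :=
  Computable.fst.comp (Computable.snd.comp R.comp)

theorem comp_t : Computable R.t := Computable.fst.comp R.comp

theorem comp_fd : Computable R.fd := by
  have h := prim_found.to_comp.comp R.comp
  exact h

/-- The conclusion about the next run. -/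
def Next (R' : Run (e + 1)) : Prop :=
  R'.P ⊆ R.P ∧ (∀ Z ∈ R.P, Z ∈ R'.P ∨ Computable Z) ∧
    nth (R.L 0) 0 ++ [false] <+: nth (R'.L 0) 0 ∧
    ((∃ n, ∀ Z ∈ R'.P, ∀ k t, W e n t (seg Z k) = false) ∨
      ∀ n, ∀ ρ ∈ R'.L n, ∃ t, W e n t ρ = true)

section Finite

variable {k₀ n i a : ℕ} {A : Sh} (h0 : R.sh k₀ = node n i a A leaf)
  (hn : ∀ k ≥ k₀, R.fd k = none)
include h0 hn

theorem fin_shape (k : ℕ) : R.sh (k₀ + k) = node n i a A (R.sh (k₀ + k)).cB := by
  induction k with
  | zero => rw [Nat.add_zero, h0]; rfl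
  | succ k ih =>
    have h1 := hn (k₀ + k) (by omega)
    unfold fd at h1
    rw [← Nat.add_assoc, R.hsh, ih] at *
    rw [step_none h1]; rfl

theorem fin_step (k : ℕ) : step (R.t (k₀ + k)) (R.sh (k₀ + k)) e (R.L (k₀ + k)) =
    (node n i a A (step (R.t (k₀ + k)) (R.sh (k₀ + k)).cB (e + 1) ((R.L (k₀ + k)).drop a)).1,
      (R.L (k₀ + k)).take a ++
        (step (R.t (k₀ + k)) (R.sh (k₀ + k)).cB (e + 1) ((R.L (k₀ + k)).drop a)).2) := by
  have h1 := hn (k₀ + k) (by omega)
  unfold fd at h1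
  have h2 := R.fin_shape h0 hn k
  rw [h2] at h1
  conv_lhs => rw [h2]
  exact step_none h1

theorem fin_lt (k : ℕ) : a < (R.L (k₀ + k)).length := by
  have := R.wf (k₀ + k)
  rw [R.fin_shape h0 hn k] at this
  exact this.inv.2.1

/-- The run of the waiting process. -/
def finRun : Run (e + 1) where
  sh k := (R.sh (k₀ + k)).cB
  L k := (R.L (k₀ + k)).drop a
  t k := R.t (k₀ + k)
  sh0 := by rw [Nat.add_zero, h0]; rfl
  len0 := by
    have := R.wf k₀
    rw [h0] at this
    simpa using this.inv.2.2.2.leaf_inv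
  hsh k := by rw [← Nat.add_assoc, R.hsh, R.fin_step h0 hn k]; rfl
  hL k := by
    have h1 := R.hL (k₀ + k)
    rw [R.fin_step h0 hn k] at h1
    have h2 := h1.drop
    have h3 := R.fin_lt h0 hn k
    rwa [List.length_take, min_eq_left h3.le] at h2
  ht k := le_trans (by omega) (R.ht (k₀ + k))
  comp := by
    have hk : Computable fun k => k₀ + k := (Primrec.nat_add.comp (.const k₀) .id).to_comp
    exact (R.comp_t.comp hk).pair ((prim_cB.to_comp.comp (R.comp_sh.comp hk)).pair
      ((Computable.const _).pair (Primrec.list_drop.to_comp.comp (Computable.const a)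
        (R.comp_L.comp hk))))

theorem fin_next (hk : 1 ≤ k₀) : R.Next (R.finRun h0 hn) := by
  have hL : ∀ k, (R.finRun h0 hn).L k = (R.L (k₀ + k)).drop a := fun _ => rfl
  have ha : 0 < a := by
    have := R.wf k₀
    rw [h0] at this
    have := this.inv.1
    omega
  refine ⟨fun X hX => R.mem_P_of_frequently fun k => ?_, fun Z hZ => ?_, ?_, Or.inl ⟨n, ?_⟩⟩
  · obtain ⟨ρ, h1, h2⟩ := hX k
    exact ⟨k₀ + k, by omega, ρ, List.mem_of_mem_drop h1, h2⟩
  · by_cases hc : Computable Z
    · exact Or.inr hc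
    left
    have hsp : ∀ j < a, ∀ k ≥ k₀, SP (nth (R.L k) j) (nth (R.L (k + 1)) j) := by
      intro j hj k hk
      obtain ⟨k, rfl⟩ := Nat.exists_eq_add_of_le hk
      have h1 := R.hL (k₀ + k)
      rw [R.fin_step h0 hn k] at h1
      have h3 := R.fin_lt h0 hn k
      have h2 := h1.2 j (by simp only [List.length_append, List.length_take]; omega)
      rwa [nth_append_left (by simp only [List.length_take]; omega), nth_take hj] at h2
    have hev : ∀ j : Fin a, ∃ k ≥ k₀, ¬ Pre (nth (R.L k) j) Z := by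
      intro j
      by_contra hcon
      push Not at hcon
      exact hc (pos_computable (hsp j j.2) hcon)
    choose c hc1 hc2 using hev
    obtain ⟨C, hC⟩ := (Set.finite_range c).bddAbove
    refine Run.mem_P_of_frequently _ fun k => ⟨k + C, by omega, ?_⟩
    obtain ⟨ρ, h1, h2⟩ := hZ (k₀ + (k + C))
    obtain ⟨j, hj, rfl⟩ := exists_nth h1
    by_cases hja : j < a
    · exfalso
      have := hC ⟨⟨j, hja⟩, rfl⟩
      exact hc2 ⟨j, hja⟩ (h2.of_prefix (pos_mono (hsp j hja) (hc1 _) (by omega)))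
    · refine ⟨_, ?_, h2⟩
      rw [hL]
      obtain ⟨j, rfl⟩ := Nat.exists_eq_add_of_le (not_lt.1 hja)
      rw [← nth_drop]
      exact nth_mem (by simp only [List.length_drop]; omega)
  · rw [hL, nth_drop]
    exact R.init_prefix (by omega) _ (by omega) (R.fin_lt h0 hn 0)
  · intro Z hZ k t
    by_contra hW
    rw [Bool.not_eq_false] at hW
    obtain ⟨ρ, h1, h2⟩ := hZ (k + t)
    have h3 := Run.le_length _ _ _ h1
    have h4 := hn (k₀ + (k + t)) (by omega)
    unfold fd at h4
    rw [R.fin_shape h0 hn] at h4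
    have h5 := found_none h4 ρ h1
    have h6 := R.ht (k₀ + (k + t))
    rw [W_mono (by omega) (h2.seg_prefix' (by omega)) hW] at h5
    exact absurd h5 (by simp)

end Finite

theorem exists_next_of_finite (h : ∃ k₀, ∀ k ≥ k₀, R.fd (k + 1) = none) :
    ∃ R' : Run (e + 1), R.Next R' := by
  classical
  have h1 := Nat.find_spec h
  have h2 : ∃ n i a A, R.sh (Nat.find h + 1) = node n i a A leaf := by
    rcases hk : Nat.find h with - | k
    · exact ⟨_, _, _, _, R.sh_one⟩
    · have h3 := Nat.find_min h (m := k) (by omega)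
      have h4 : R.fd (k + 1) ≠ none := by
        intro h4
        refine h3 fun k' hk' => ?_
        rcases hk'.eq_or_lt with rfl | hlt
        · exact h4
        · exact h1 k' (by omega)
      obtain ⟨ρ, hρ⟩ := Option.ne_none_iff_exists'.1 h4
      obtain ⟨n, i, a, A, B, hs⟩ := R.isNode k
      unfold fd at hρ
      rw [hs] at hρ
      rw [R.hsh, hs]
      by_cases hia : i + 1 < a
      · rw [step_mid hρ hia]; exact ⟨_, _, _, _, rfl⟩
      · rw [step_fin hρ hia]; exact ⟨_, _, _, _, rfl⟩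
  obtain ⟨n, i, a, A, h2⟩ := h2
  have h3 : ∀ k ≥ Nat.find h + 1, R.fd k = none := by
    intro k hk
    obtain ⟨k, rfl⟩ : ∃ k', k = k' + 1 := ⟨k - 1, by omega⟩
    exact h1 k (by omega)
  exact ⟨_, R.fin_next h2 h3 (by omega)⟩

/-- The list handed to the dormant process at the end of a phase. -/
def done (k : ℕ) : List (List Bool) :=
  ((R.L k).take (R.sh k).ca).tail ++ [(R.fd k).getD []]

theorem comp_done : Computable R.done :=
  Primrec.list_concat.to_comp.comp (Primrec.list_tail.to_comp.comp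
    (Primrec.list_take.to_comp.comp (prim_ca.to_comp.comp R.comp_sh) R.comp_L))
    (Primrec.option_getD.to_comp.comp R.comp_fd (Computable.const []))

/-- The invariant of a phase. -/
structure Inv (k n i : ℕ) (A : Sh) (M : List (List Bool)) : Prop where
  shape : ∃ B, R.sh k = node n i M.length A B
  old : ∀ j < i, SP (nth M j) (nth (R.L k) (j + 1)) ∧ ∃ t, W e n t (nth (R.L k) (j + 1)) = true
  todo : ∀ j, i < j → j < M.length → SP (nth M j) (nth (R.L k) j)
  cur : ∀ ρ ∈ (R.L k).drop M.length, SP (nth M i) ρ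

section Phase

variable {R} {k n i : ℕ} {A : Sh} {M : List (List Bool)}

theorem Inv.lt (h : R.Inv k n i A M) : i < M.length ∧ M.length < (R.L k).length := by
  obtain ⟨B, hB⟩ := h.shape
  have := R.wf k
  rw [hB] at this
  exact ⟨this.inv.1, this.inv.2.1⟩

theorem Inv.none (h : R.Inv k n i A M) (hf : R.fd k = none) : R.Inv (k + 1) n i A M := by
  obtain ⟨B, hB⟩ := h.shape
  obtain ⟨h1, h2⟩ := h.lt
  have hw := R.wf k
  have hL := R.hL k
  have hs := R.hsh k
  unfold fd at hf
  rw [hB] at hf hw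
  rw [hB, step_none hf] at hL hs
  have hp : ∀ j < M.length, SP (nth (R.L k) j) (nth (R.L (k + 1)) j) := by
    intro j hj
    have h3 := hL.2 j (by simp only [List.length_append, List.length_take]; omega)
    rwa [nth_append_left (by simp only [List.length_take]; omega), nth_take hj] at h3
  refine ⟨⟨_, hs⟩, fun j hj => ?_, fun j hj hj' => (h.todo j hj hj').trans_pre (hp j hj').1,
    fun ρ hρ => ?_⟩
  · obtain ⟨h3, t, h4⟩ := h.old j hj
    exact ⟨h3.trans_pre (hp _ (by omega)).1, t, W_mono le_rfl (hp _ (by omega)).1 h4⟩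
  · have h3 := hL.drop
    rw [List.length_take, min_eq_left h2.le] at h3
    obtain ⟨σ, h4, h5⟩ := h3.cover hρ
    obtain ⟨τ, h6, h7⟩ := (step_spec _ hw.inv.2.2.2 (e + 1) _ (by simp)).2 σ h4
    exact (h.cur τ h6).trans_pre (h7.trans h5.1)

theorem Inv.mid (h : R.Inv k n i A M) {ρ : List Bool} (hf : R.fd k = some ρ)
    (hi : i + 1 < M.length) : R.Inv (k + 1) n (i + 1) A M := by
  obtain ⟨B, hB⟩ := h.shape
  obtain ⟨h1, h2⟩ := h.lt
  have hL := R.hL k
  have hs := R.hsh k
  unfold fd at hf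
  rw [hB] at hf
  rw [hB, step_mid hf hi] at hL hs
  obtain ⟨f1, f2⟩ := found_spec hf
  set l := R.L k with hl
  set a := M.length with ha
  have hlen : (l.take (i + 1) ++ ρ :: ((l.take a).drop (i + 2) ++ [nth l (i + 1)])).length =
      a + 1 := by
    simp only [List.length_append, List.length_take, List.length_cons, List.length_drop,
      List.length_nil]
    omega
  have hp := hL.2
  have hlen' := hL.1
  simp only [hlen] at hp hlen'
  have e1 : (l.take (i + 1)).length = i + 1 := by simp only [List.length_take]; omega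
  refine ⟨⟨_, hs⟩, fun j hj => ?_, fun j hj hj' => ?_, fun σ hσ => ?_⟩
  · have h3 := hp (j + 1) (by omega)
    rcases (Nat.lt_succ_iff.1 hj).eq_or_lt with rfl | hlt
    · rw [nth_append_right (by omega), e1, Nat.sub_self, nth_cons_zero] at h3
      exact ⟨(h.cur ρ f1).trans_pre h3.1, _, W_mono le_rfl h3.1 f2⟩
    · rw [nth_append_left (by omega), nth_take (by omega)] at h3
      obtain ⟨h4, t, h5⟩ := h.old j hlt
      exact ⟨h4.trans_pre h3.1, t, W_mono le_rfl h3.1 h5⟩
  · have h3 := hp j (by omega)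
    obtain ⟨d, rfl⟩ : ∃ d, j = i + 1 + (d + 1) := ⟨j - (i + 2), by omega⟩
    rw [nth_append_right (by omega), e1, Nat.add_sub_cancel_left, nth_cons_succ,
      nth_append_left (by simp only [List.length_drop, List.length_take]; omega), nth_drop,
      nth_take (by omega), show i + 2 + d = i + 1 + (d + 1) by omega] at h3
    exact (h.todo _ (by omega) hj').trans_pre h3.1
  · obtain ⟨j, hj, rfl⟩ := exists_nth hσ
    simp only [List.length_drop] at hj
    obtain rfl : j = 0 := by omega
    have h3 := hp a (by omega)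
    obtain ⟨d, hd⟩ : ∃ d, a = i + 1 + (d + 1) := ⟨a - (i + 2), by omega⟩
    have e2 : ((l.take a).drop (i + 2)).length = d := by
      simp only [List.length_drop, List.length_take]; omega
    rw [nth_append_right (by omega), e1, show a - (i + 1) = d + 1 by omega, nth_cons_succ,
      nth_append_right (by omega), e2, Nat.sub_self, nth_cons_zero] at h3
    rw [nth_drop, Nat.add_zero]
    exact (h.todo _ (by omega) hi).trans_pre h3.1

theorem inv_start {k n : ℕ} {A : Sh} {M : List (List Bool)} {τ : List Bool} (hM : 0 < M.length)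
    (hs : R.sh k = node n 0 M.length A leaf) (hL : Ext (τ :: (M.tail ++ [nth M 0])) (R.L k)) :
    R.Inv k n 0 A M := by
  have hp := hL.2
  have hlen := hL.1
  simp only [List.length_cons, List.length_append, List.length_tail, List.length_nil] at hp hlen
  refine ⟨⟨_, hs⟩, fun j hj => absurd hj (by omega), fun j hj hj' => ?_, fun σ hσ => ?_⟩
  · have h3 := hp j (by omega)
    obtain ⟨j, rfl⟩ : ∃ d, j = d + 1 := ⟨j - 1, by omega⟩
    rwa [nth_cons_succ, nth_append_left (by simp only [List.length_tail]; omega), nth_tail] at h3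
  · obtain ⟨j, hj, rfl⟩ := exists_nth hσ
    simp only [List.length_drop] at hj
    obtain rfl : j = 0 := by omega
    have h3 := hp M.length (by omega)
    obtain ⟨d, hd⟩ : ∃ d, M.length = d + 1 := ⟨M.length - 1, by omega⟩
    rw [nth_drop, Nat.add_zero, hd]
    rwa [hd, nth_cons_succ, nth_append_right (by simp only [List.length_tail]; omega),
      List.length_tail, hd, Nat.add_sub_cancel, Nat.sub_self, nth_cons_zero] at h3

theorem Inv.fin (h : R.Inv k n i A M) {ρ : List Bool} (hf : R.fd k = some ρ)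
    (hi : ¬ i + 1 < M.length) : Ext M (R.done k) ∧ (∀ σ ∈ R.done k, ∃ t, W e n t σ = true) ∧
      (∀ σ ∈ R.done k, ∃ j, 0 < j ∧ j < (R.L k).length ∧ nth (R.L k) j = σ) ∧
      (∀ j, 0 < j → j < (R.L (k + 1)).length → ∃ σ ∈ R.done k, σ <+: nth (R.L (k + 1)) j) ∧
      R.Inv (k + 1) (n + 1) 0 (step (R.t k) A (e + 1) (R.done k)).1
        (step (R.t k) A (e + 1) (R.done k)).2 := by
  obtain ⟨B, hB⟩ := h.shape
  obtain ⟨h1, h2⟩ := h.lt
  have hw := R.wf k
  have hL := R.hL k
  have hs := R.hsh k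
  have hd : R.done k = ((R.L k).take M.length).tail ++ [ρ] := by
    rw [done, hf, hB]; rfl
  unfold fd at hf
  rw [hB] at hf hw
  rw [hB, step_fin hf hi, ← hd] at hL hs
  obtain ⟨f1, f2⟩ := found_spec hf
  have e1 : ((R.L k).take M.length).tail.length = i := by
    simp only [List.length_tail, List.length_take]; omega
  have e2 : (R.done k).length = M.length := by
    rw [hd, List.length_append, e1, List.length_singleton]; omega
  have e3 : ∀ j < i, nth (R.done k) j = nth (R.L k) (j + 1) := by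
    intro j hj
    rw [hd, nth_append_left (by omega), nth_tail, nth_take (by omega)]
  have e4 : nth (R.done k) i = ρ := by
    rw [hd, nth_append_right (by omega), e1, Nat.sub_self, nth_cons_zero]
  obtain ⟨s1, s2⟩ := step_spec (R.t k) hw.inv.2.2.1 (e + 1) (R.done k) e2
  refine ⟨⟨e2.symm, fun j hj => ?_⟩, fun σ hσ => ?_, fun σ hσ => ?_, fun j hj hj' => ?_,
    inv_start s1.pos hs hL⟩
  · rcases (show j ≤ i by omega).eq_or_lt with rfl | hlt
    · rw [e4]; exact h.cur ρ f1
    · rw [e3 j hlt]; exact (h.old j hlt).1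
  · obtain ⟨j, hj, rfl⟩ := exists_nth hσ
    rcases (show j ≤ i by omega).eq_or_lt with rfl | hlt
    · rw [e4]; exact ⟨_, f2⟩
    · rw [e3 j hlt]; exact (h.old j hlt).2
  · obtain ⟨j, hj, rfl⟩ := exists_nth hσ
    rcases (show j ≤ i by omega).eq_or_lt with rfl | hlt
    · rw [e4]
      obtain ⟨j', hj', e5⟩ := exists_nth f1
      simp only [List.length_drop] at hj'
      exact ⟨M.length + j', by omega, by omega, by rw [← nth_drop, e5]⟩
    · exact ⟨j + 1, by omega, by omega, (e3 j hlt).symm⟩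
  · have h3 := hL.2 j (by rw [hL.1]; exact hj')
    have h4 := hL.1
    obtain ⟨j, rfl⟩ : ∃ d, j = d + 1 := ⟨j - 1, by omega⟩
    rw [nth_cons_succ] at h3
    simp only [List.length_cons] at h4
    have h5 := nth_mem (show j < _ from (by omega : j < ((step (R.t k) A (e + 1)
      (R.done k)).2.tail ++ [nth (step (R.t k) A (e + 1) (R.done k)).2 0]).length))
    generalize nth ((step (R.t k) A (e + 1) (R.done k)).2.tail ++
      [nth (step (R.t k) A (e + 1) (R.done k)).2 0]) j = σ at h3 h5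
    have h6 : σ ∈ (step (R.t k) A (e + 1) (R.done k)).2 := by
      rcases List.mem_append.1 h5 with h | h
      · exact List.mem_of_mem_tail h
      · rw [List.mem_singleton.1 h]; exact nth_mem s1.pos
    obtain ⟨τ, h7, h8⟩ := s2 σ h6
    exact ⟨τ, h7, h8.trans h3.1⟩

theorem Inv.to_hit (h : R.Inv k n i A M) (d : ℕ) (hd : R.fd (k + d) ≠ Option.none) :
    ∃ k' ≥ k, R.Inv k' n i A M ∧ ∃ ρ, R.fd k' = some ρ := by
  induction d generalizing k with
  | zero => exact ⟨k, le_rfl, h, Option.ne_none_iff_exists'.1 hd⟩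
  | succ d ih =>
    rcases hf : R.fd k with - | ρ
    · obtain ⟨k', h1, h2⟩ := ih (h.none hf) (by rwa [Nat.add_assoc, Nat.add_comm 1 d])
      exact ⟨k', by omega, h2⟩
    · exact ⟨k, le_rfl, h, ρ, hf⟩

theorem Inv.to_end (hinf : ∀ k, ∃ d, R.fd (k + d) ≠ Option.none) (h : R.Inv k n i A M) :
    ∃ k' ≥ k, ∃ i', R.Inv k' n i' A M ∧ ¬ i' + 1 < M.length ∧ ∃ ρ, R.fd k' = some ρ := by
  induction hm : M.length - i generalizing k i with
  | zero => have := h.lt.1; omega
  | succ m ih =>
    obtain ⟨d, hd⟩ := hinf k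
    obtain ⟨k', h1, h2, ρ, h3⟩ := h.to_hit d hd
    by_cases hi : i + 1 < M.length
    · obtain ⟨k'', h4, h5⟩ := ih (h2.mid h3 hi) (by omega)
      exact ⟨k'', by omega, h5⟩
    · exact ⟨k', h1, i, h2, hi, ρ, h3⟩

end Phase

theorem cn_mono : Monotone fun k => (R.sh k).cn := by
  refine monotone_nat_of_le_succ fun k => ?_
  rw [R.hsh]
  rcases hs : R.sh k with - | ⟨n, i, a, A, B⟩
  · exact Nat.zero_le _
  · rcases hf : found (R.t k) (node n i a A B) e (R.L k) with - | ρ
    · rw [step_none hf]; exact le_rfl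
    · by_cases hia : i + 1 < a
      · rw [step_mid hf hia]; exact le_rfl
      · rw [step_fin hf hia]; exact Nat.le_succ _

/-- Stage `k` ends phase `n`. -/
def End (k n : ℕ) (A : Sh) (M : List (List Bool)) : Prop :=
  1 ≤ k ∧ n ≤ k ∧ ∃ i, R.Inv k n i A M ∧ ¬ i + 1 < M.length ∧ ∃ ρ, R.fd k = some ρ

theorem End.cn {k n : ℕ} {A : Sh} {M : List (List Bool)} (h : R.End k n A M) :
    (R.sh k).cn = n ∧ (R.sh (k + 1)).cn = n + 1 ∧ (R.sh k).cA = A := by
  obtain ⟨-, -, i, h1, h2, ρ, h3⟩ := h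
  obtain ⟨B, hB⟩ := h1.shape
  obtain ⟨B', hB'⟩ := (h1.fin h3 h2).2.2.2.2.shape
  rw [hB, hB']
  exact ⟨rfl, rfl, rfl⟩

theorem exists_next_of_infinite (hinf : ∀ k, ∃ d, R.fd (k + d) ≠ none) :
    ∃ R' : Run (e + 1), R.Next R' := by
  classical
  have hnext : ∀ {k n A M}, R.End k n A M → ∃ k', R.End k' (n + 1)
      (step (R.t k) A (e + 1) (R.done k)).1 (step (R.t k) A (e + 1) (R.done k)).2 := by
    rintro k n A M ⟨h0, h0', i, h1, h2, ρ, h3⟩
    obtain ⟨k', h4, h5⟩ := (h1.fin h3 h2).2.2.2.2.to_end hinf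
    exact ⟨k', by omega, by omega, h5⟩
  have hzero : ∃ k, R.End k 0 leaf [nth (R.L 0) 0 ++ [false]] := by
    have h1 : R.Inv 1 0 0 leaf [nth (R.L 0) 0 ++ [false]] :=
      inv_start (by simp) R.sh_one R.step_zero
    obtain ⟨k', h4, h5⟩ := h1.to_end hinf
    exact ⟨k', h4, by omega, h5⟩
  have hall : ∀ n, ∃ k A M, R.End k n A M := by
    intro n
    induction n with
    | zero => obtain ⟨k, h⟩ := hzero; exact ⟨k, _, _, h⟩
    | succ n ih =>
      obtain ⟨k, A, M, h⟩ := ih
      obtain ⟨k', h'⟩ := hnext h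
      exact ⟨k', _, _, h'⟩
  have hex : ∀ n, ∃ k, (R.sh (k + 1)).cn = n + 1 := fun n => by
    obtain ⟨k, A, M, h⟩ := hall n
    exact ⟨k, h.cn.2.1⟩
  set K : ℕ → ℕ := fun n => Nat.find (hex n) with hK
  have hKeq : ∀ {k n A M}, R.End k n A M → K n = k := by
    intro k n A M h
    refine (Nat.find_eq_iff _).2 ⟨h.cn.2.1, fun m hm hc => ?_⟩
    have h1 := R.cn_mono (show m + 1 ≤ k from hm)
    have h2 := h.cn.1
    simp only at h1
    omega
  have hKc : Computable K := by
    have h1 : ComputablePred fun p : ℕ × ℕ => (R.sh (p.2 + 1)).cn = p.1 + 1 := by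
      have h3 := (Primrec.eq (α := ℕ)).decide.to_comp.comp
        (prim_cn.to_comp.comp (R.comp_sh.comp (Computable.succ.comp
          (Computable.snd (α := ℕ))))) (Computable.succ.comp Computable.fst)
      exact ⟨inferInstance, h3⟩
    exact Computable.find h1 hex
  have hend : ∀ n, ∃ M, R.End (K n) n (R.sh (K n)).cA M := by
    intro n
    obtain ⟨k, A, M, h⟩ := hall n
    rw [hKeq h, h.cn.2.2]
    exact ⟨M, h⟩
  have hstep : ∀ n, R.End (K (n + 1)) (n + 1)
      (step (R.t (K n)) (R.sh (K n)).cA (e + 1) (R.done (K n))).1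
      (step (R.t (K n)) (R.sh (K n)).cA (e + 1) (R.done (K n))).2 := by
    intro n
    obtain ⟨M, h⟩ := hend n
    obtain ⟨k', h'⟩ := hnext h
    rwa [hKeq h']
  have hfin : ∀ n, (∀ σ ∈ R.done (K n), ∃ t, W e n t σ = true) ∧
      (∀ σ ∈ R.done (K n), ∃ j, 0 < j ∧ j < (R.L (K n)).length ∧ nth (R.L (K n)) j = σ) ∧
      (∀ j, 0 < j → j < (R.L (K n + 1)).length →
        ∃ σ ∈ R.done (K n), σ <+: nth (R.L (K n + 1)) j) := by
    intro n
    obtain ⟨M, -, -, i, h1, h2, ρ, h3⟩ := hend n
    obtain ⟨-, a1, a2, a3, -⟩ := h1.fin h3 h2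
    exact ⟨a1, a2, a3⟩
  have hle : ∀ n, 1 ≤ K n ∧ n ≤ K n := fun n => by
    obtain ⟨M, h1, h2, -⟩ := hend n
    exact ⟨h1, h2⟩
  obtain ⟨k0, hk0⟩ := hzero
  have hlen0 : (R.done (K 0)).length = 1 := by
    rw [hKeq hk0]
    obtain ⟨-, -, i, h1, h2, ρ, h3⟩ := hk0
    exact (h1.fin h3 h2).1.1.symm
  let R' : Run (e + 1) :=
    { sh := fun n => (R.sh (K n)).cA
      L := fun n => R.done (K n)
      t := fun n => R.t (K n)
      sh0 := by rw [hKeq hk0]; exact hk0.cn.2.2
      len0 := hlen0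
      hsh := fun n => (hstep n).cn.2.2
      hL := fun n => by
        obtain ⟨-, -, i, h1, h2, ρ, h3⟩ := hstep n
        exact (h1.fin h3 h2).1
      ht := fun n => (hle n).2.trans (R.ht _)
      comp := (R.comp_t.comp hKc).pair ((prim_cA.to_comp.comp (R.comp_sh.comp hKc)).pair
        ((Computable.const _).pair (R.comp_done.comp hKc))) }
  have hL : ∀ n, R'.L n = R.done (K n) := fun _ => rfl
  refine ⟨R', fun X hX => R.mem_P_of_frequently fun k => ?_, fun Z hZ => ?_, ?_,
    Or.inr fun n => (hfin n).1⟩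
  · obtain ⟨ρ, h1, h2⟩ := hX k
    obtain ⟨j, -, h3, rfl⟩ := (hfin k).2.1 ρ h1
    exact ⟨K k, (hle k).2, _, nth_mem h3, h2⟩
  · by_cases hc : Computable Z
    · exact Or.inr hc
    left
    obtain ⟨c, hc1, hc2⟩ : ∃ k ≥ 1, ¬ Pre (nth (R.L k) 0) Z := by
      by_contra hcon
      push Not at hcon
      exact hc (pos_computable R.reserve_sp hcon)
    refine Run.mem_P_of_frequently _ fun k => ⟨k + c, by omega, ?_⟩
    obtain ⟨ρ, h1, h2⟩ := hZ (K (k + c) + 1)
    obtain ⟨j, hj, rfl⟩ := exists_nth h1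
    rcases Nat.eq_zero_or_pos j with rfl | hpos
    · have := (hle (k + c)).2
      exact absurd (h2.of_prefix (pos_mono R.reserve_sp hc1 (by omega))) hc2
    · obtain ⟨σ, h3, h4⟩ := (hfin (k + c)).2.2 j hpos hj
      exact ⟨σ, h3, h2.of_prefix h4⟩
  · obtain ⟨j, h1, h2, h3⟩ := (hfin 0).2.1 _ (nth_mem (j := 0) (by omega))
    rw [hL, ← h3]
    exact R.init_prefix (hle 0).1 j h1 h2

theorem exists_next : ∃ R' : Run (e + 1), R.Next R' := by
  by_cases h : ∃ k₀, ∀ k ≥ k₀, R.fd (k + 1) = none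
  · exact R.exists_next_of_finite h
  · refine R.exists_next_of_infinite fun k => ?_
    push Not at h
    obtain ⟨k', h1, h2⟩ := h k
    exact ⟨k' + 1 - k, by rwa [show k + (k' + 1 - k) = k' + 1 by omega]⟩

end Run

end Pool.Agent.Lib.MP_4b35b9_lc
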