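import Pool.Agent.Lib.MP_4b35b9_lc.Sub

/-!
A computably dominated noncomputable real that is the only noncomputable member of an
effectively closed class.
-/

namespace Pool.Agent.Lib.MP_4b35b9_lc

open Pool.Agent.Shared.Oracle Sh

/-- The states of the outermost run. -/
def state (k : ℕ) : Sh × List (List Bool) :=
  Nat.rec (leaf, [[]]) (fun k p => ((step k p.1 0 p.2).1,
    (step k p.1 0 p.2).2.map fun ρ => ρ ++ [false])) k

theorem comp_state : Computable state := by
  have h1 : Primrec fun y : ℕ × ℕ × Sh × List (List Bool) =>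
      ((y.2.1, y.2.2.1, 0, y.2.2.2) : Arg) :=
    (Primrec.fst.comp Primrec.snd).pair ((Primrec.fst.comp (Primrec.snd.comp Primrec.snd)).pair
      ((Primrec.const 0).pair (Primrec.snd.comp (Primrec.snd.comp Primrec.snd))))
  have h2 := prim_step.comp h1
  have h3 := Primrec.list_map (Primrec.snd.comp h2) (g := fun _ (ρ : List Bool) => ρ ++ [false])
    (Primrec.list_concat.comp Primrec.snd (Primrec.const false)).to₂
  have h4 := (Primrec.fst.comp h2).pair h3
  have h5 := Computable.nat_rec (f := fun k : ℕ => k) (g := fun _ => ((leaf, [[]]) :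
    Sh × List (List Bool))) (h := fun (_ : ℕ) (q : ℕ × Sh × List (List Bool)) =>
      ((step q.1 q.2.1 0 q.2.2).1, (step q.1 q.2.1 0 q.2.2).2.map fun ρ => ρ ++ [false]))
    Computable.id (Computable.const _) h4.to_comp.to₂
  exact h5

/-- The outermost run. -/
def top : Run 0 where
  sh k := (state k).1
  L k := (state k).2
  t k := k
  sh0 := rfl
  len0 := rfl
  hsh _ := rfl
  hL k := by
    refine ⟨(List.length_map _).symm, fun j hj => ?_⟩
    have : nth (state (k + 1)).2 j = nth (step k (state k).1 0 (state k).2).2 j ++ [false] := by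
      change nth (List.map (fun ρ => ρ ++ [false]) (step k (state k).1 0 (state k).2).2) j = _
      simp [nth, hj]
    rw [this]
    exact ⟨List.prefix_append _ _, by simp⟩
  ht _ := le_rfl
  comp := Computable.id.pair ((Computable.fst.comp comp_state).pair
    ((Computable.const _).pair (Computable.snd.comp comp_state)))

/-- The nested runs. -/
noncomputable def runs (e : ℕ) : Run e :=
  Nat.rec (motive := Run) top (fun _ R => R.exists_next.choose) e

theorem runs_next (e : ℕ) : (runs e).Next (runs (e + 1)) := (runs e).exists_next.choose_spec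

theorem init_length (e : ℕ) : e ≤ (nth ((runs e).L 0) 0).length := by
  induction e with
  | zero => exact Nat.zero_le _
  | succ e ih =>
    have := (runs_next e).2.2.1.length_le
    simp only [List.length_append, List.length_singleton] at this
    omega

theorem exists_real : ∃ X : ℕ → Bool, X ∈ top.P ∧ ¬ Computable X ∧
    (∀ Z ∈ top.P, Z = X ∨ Computable Z) ∧
    ∀ f : ℕ → ℕ, RecursiveIn {orc X} (f : ℕ →. ℕ) → ∃ g, Computable g ∧ ∀ n, f n ≤ g n := by
  classical
  obtain ⟨X, hX⟩ := IsCompact.nonempty_iInter_of_sequence_nonempty_isCompact_isClosed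
    (fun e => (runs e).P) (fun e => (runs_next e).1)
    (fun e => let ⟨Z, hZ, _⟩ := (runs e).exists_reserve; ⟨Z, hZ⟩)
    (runs 0).isClosed_P.isCompact (fun e => (runs e).isClosed_P)
  have hX' : ∀ e, X ∈ (runs e).P := Set.mem_iInter.1 hX
  refine ⟨X, hX' 0, fun hc => ?_, fun Z hZ => ?_, fun f hf => ?_⟩
  · have h1 : REPred fun p : List Bool × ℕ => ¬ Pre p.1 X := by
      have h2 : Computable (seg X) := by
        have := cin_seg (O := ∅) hc.computableIn
        exact recursiveIn_empty_iff.1 this
      have h3 := (Primrec.eq (α := List Bool)).decide.to_comp.comp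
        (h2.comp (Primrec.list_length.to_comp.comp (Computable.fst (β := ℕ)))) Computable.fst
      have h4 : ComputablePred fun p : List Bool × ℕ => Pre p.1 X := ⟨_, h3⟩
      exact h4.not.to_re
    obtain ⟨e, he⟩ := exists_W h1 fun ρ ρ' n h h' h'' => h' (h''.of_prefix h)
    rcases (runs_next e).2.2.2 with ⟨n, h⟩ | h
    · obtain ⟨Z, hZ, hZ'⟩ := (runs (e + 1)).exists_reserve
      have h2 := ((runs (e + 2)).pre_init (hX' _)).of_prefix (runs_next (e + 1)).2.2.1
      have h3 : Pre (nth ((runs (e + 1)).L 0) 0 ++ [true]) X := by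
        by_contra h3
        obtain ⟨t, ht⟩ := (he _ n).1 h3
        have := h Z hZ (nth ((runs (e + 1)).L 0) 0 ++ [true]).length t
        rw [hZ', ht] at this
        exact absurd this (by simp)
      have h4 := h2.getElem? (m := (nth ((runs (e + 1)).L 0) 0).length) (by simp)
      have h5 := h3.getElem? (m := (nth ((runs (e + 1)).L 0) 0).length) (by simp)
      simp only [List.getElem?_concat_length, Option.some.injEq] at h4 h5
      rw [← h4] at h5
      exact absurd h5 (by simp)
    · obtain ⟨ρ, h1, h2⟩ := hX' (e + 1) 0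
      exact (he ρ 0).2 (h 0 ρ h1) h2
  · by_cases hc : Computable Z
    · exact Or.inr hc
    left
    have hZ' : ∀ e, Z ∈ (runs e).P := by
      intro e
      induction e with
      | zero => exact hZ
      | succ e ih => exact ((runs_next e).2.1 Z ih).resolve_right hc
    funext m
    have h1 := ((runs (m + 1)).pre_init (hZ' _)).getElem? (init_length (m + 1))
    have h2 := ((runs (m + 1)).pre_init (hX' _)).getElem? (init_length (m + 1))
    exact Option.some.inj (h1.symm.trans h2)
  · obtain ⟨F, hF, hf⟩ := use_principle (RecursiveIn.iff_nat.1 hf)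
    simp only [PFun.coe_val, Part.mem_some_iff] at hf
    obtain ⟨e, he⟩ := exists_W (p := fun p => (F p.1 p.2).Dom) (Partrec.dom_re hF.partrec)
      fun ρ ρ' n h h' => Part.dom_iff_mem.2
        (let ⟨v, hv⟩ := Part.dom_iff_mem.1 h'; ⟨v, hF.mono h hv⟩)
    rcases (runs_next e).2.2.2 with ⟨n, h⟩ | h
    · obtain ⟨k, hk⟩ := (hf n _).1 rfl
      obtain ⟨t, ht⟩ := (he (seg X k) n).1 (Part.dom_iff_mem.2 ⟨_, hk⟩)
      rw [h X (hX' _) k t] at ht
      exact absurd ht (by simp)
    · obtain ⟨q, hq, eq⟩ := re_normal (re_mem (f := fun p : List Bool × ℕ => F p.1 p.2) hF.partrec)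
      have h1 : PrimrecRel fun (ρ : List Bool) (y : ℕ × ℕ) =>
          ∃ v < y.2, ∃ t < y.2, q ((ρ, y.1), v) t := by
        have h2 : PrimrecRel fun (t : ℕ) (z : ℕ × List Bool × ℕ × ℕ) =>
            q ((z.2.1, z.2.2.1), z.1) t :=
          hq.comp (((Primrec.fst.comp (Primrec.snd.comp Primrec.snd)).pair
            (Primrec.fst.comp (Primrec.snd.comp (Primrec.snd.comp Primrec.snd)))).pair
            (Primrec.fst.comp Primrec.snd)) Primrec.fst
        have h3 := prim_exists_lt (Primrec.snd.comp (Primrec.snd.comp Primrec.snd)) h2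
        exact prim_exists_lt (R := fun (v : ℕ) (z : List Bool × ℕ × ℕ) =>
          ∃ t < z.2.2, q ((z.1, z.2.1), v) t) (Primrec.snd.comp Primrec.snd) h3
      have h2 : ComputablePred fun y : ℕ × ℕ => ∀ ρ ∈ (runs (e + 1)).L y.1,
          ∃ v < y.2, ∃ t < y.2, q ((ρ, y.1), v) t := by
        have h3 := h1.forall_mem_list.decide.to_comp.comp
          ((runs (e + 1)).comp_L.comp (Computable.fst (β := ℕ))) Computable.id
        exact ⟨_, h3⟩
      have hex : ∀ n, ∃ m, ∀ ρ ∈ (runs (e + 1)).L n, ∃ v < m, ∃ t < m, q ((ρ, n), v) t := by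
        intro n
        have h3 : ∀ ρ ∈ (runs (e + 1)).L n, ∃ v t, q ((ρ, n), v) t := by
          intro ρ hρ
          obtain ⟨v, hv⟩ := Part.dom_iff_mem.1 ((he ρ n).2 (h n ρ hρ))
          exact ⟨v, (eq ((ρ, n), v)).1 hv⟩
        generalize (runs (e + 1)).L n = l at h3
        induction l with
        | nil => exact ⟨0, by simp⟩
        | cons ρ l ih =>
          obtain ⟨m, hm⟩ := ih fun σ hσ => h3 σ (List.mem_cons_of_mem _ hσ)
          obtain ⟨v, t, hv⟩ := h3 ρ List.mem_cons_self
          refine ⟨m + v + t + 1, fun σ hσ => ?_⟩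
          rcases List.mem_cons.1 hσ with rfl | hσ
          · exact ⟨v, by omega, t, by omega, hv⟩
          · obtain ⟨v', a1, t', a2, a3⟩ := hm σ hσ
            exact ⟨v', by omega, t', by omega, a3⟩
      refine ⟨fun n => Nat.find (hex n), Computable.find h2 hex, fun n => ?_⟩
      obtain ⟨ρ, h3, h4⟩ := hX' (e + 1) n
      obtain ⟨v, h5, t, -, h6⟩ := Nat.find_spec (hex n) ρ h3
      have h7 : v ∈ F ρ n := (eq ((ρ, n), v)).2 ⟨t, h6⟩
      have h8 := (hf n v).2 ⟨ρ.length, by rwa [h4]⟩
      exact h8 ▸ h5.le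

end Pool.Agent.Lib.MP_4b35b9_lc
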